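import Pool.Agent.Lib.MP_6fbcf6_al.Final

set_option autoImplicit false

/-!
Eggert's conjecture, for nonunital algebras, over every perfect field.
-/

namespace Pool.Agent.Results.MP_6fbcf6_al.EggertConjecture

/-- The product `a * b₁ * ⋯ * b_k` for a list `[b₁, …, b_k]`. -/
def prodList {R : Type} [Mul R] (a : R) (l : List R) : R := l.foldl (· * ·) a

/-- The power `r ^ p` for `p ≥ 1`, that is, the product of `p` factors `r`. -/
def powOf {R : Type} [Mul R] (p : ℕ) (r : R) : R := prodList r (List.replicate (p - 1) r)

/-- `R` is nilpotent: for some `k`, every product of `k + 1` elements is zero. -/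
def Nilpotent (R : Type) [Mul R] [Zero R] : Prop :=
  ∃ k : ℕ, ∀ (a : R) (l : List R), l.length = k → prodList a l = 0

section aux

variable {R : Type} [NonUnitalCommRing R]

lemma mul_prodList (s a : R) (l : List R) : s * prodList a l = prodList (s * a) l := by
  induction l generalizing a with
  | nil => rfl
  | cons b l ih =>
    change s * prodList (a * b) l = prodList (s * a * b) l
    rw [ih, mul_assoc]

lemma prodList_append (a s : R) (l : List R) : prodList a (l ++ [s]) = prodList a l * s := by
  unfold prodList
  rw [List.foldl_append]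
  rfl

variable {F : Type} [Field F] [Module F R] [IsScalarTower F R R] [SMulCommClass F R R]

open Unitization

lemma inr_prodList (a : R) (l : List R) :
    ((prodList a l : R) : Unitization F R)
      = (a : Unitization F R) * (l.map (Unitization.inr : R → Unitization F R)).prod := by
  induction l generalizing a with
  | nil => simp [prodList]
  | cons b l ih =>
    change ((prodList (a * b) l : R) : Unitization F R) = _
    rw [ih, List.map_cons, List.prod_cons, inr_mul, mul_assoc]

lemma inr_powOf (p : ℕ) (hp : 0 < p) (r : R) :
    ((powOf p r : R) : Unitization F R) = (r : Unitization F R) ^ p := by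
  unfold powOf
  rw [inr_prodList, List.map_replicate, List.prod_replicate, ← pow_succ']
  congr 1
  omega

variable (F R) in
/-- the span of the products of `k + 1` elements -/
def Q (k : ℕ) : Submodule F R :=
  Submodule.span F {x | ∃ (a : R) (l : List R), l.length = k ∧ x = prodList a l}

lemma mul_mem_Q (k : ℕ) (s x : R) (hx : x ∈ Q R F k) : s * x ∈ Q R F k := by
  unfold Q at hx ⊢
  induction hx using Submodule.span_induction with
  | mem x hx =>
    obtain ⟨a, l, hl, rfl⟩ := hx
    exact Submodule.subset_span ⟨s * a, l, hl, mul_prodList s a l⟩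
  | zero => rw [mul_zero]; exact Submodule.zero_mem _
  | add x y _ _ hx hy => rw [mul_add]; exact Submodule.add_mem _ hx hy
  | smul c x _ hx => rw [mul_smul_comm]; exact Submodule.smul_mem _ _ hx

lemma mul_mem_Q_succ (k : ℕ) (s x : R) (hx : x ∈ Q R F k) : x * s ∈ Q R F (k + 1) := by
  unfold Q at hx ⊢
  induction hx using Submodule.span_induction with
  | mem x hx =>
    obtain ⟨a, l, hl, rfl⟩ := hx
    exact Submodule.subset_span ⟨a, l ++ [s], by simp [hl], (prodList_append a s l).symm⟩
  | zero => rw [zero_mul]; exact Submodule.zero_mem _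
  | add x y _ _ hx hy => rw [add_mul]; exact Submodule.add_mem _ hx hy
  | smul c x _ hx => rw [smul_mul_assoc]; exact Submodule.smul_mem _ _ hx

variable (F R) in
/-- the ideal of the unitization formed by the elements of `Q k` -/
def T (k : ℕ) : Ideal (Unitization F R) where
  carrier := {x | ∃ r ∈ Q R F k, x = (r : Unitization F R)}
  zero_mem' := ⟨0, Submodule.zero_mem _, (inr_zero F).symm⟩
  add_mem' := by
    rintro _ _ ⟨r, hr, rfl⟩ ⟨s, hs, rfl⟩
    exact ⟨r + s, Submodule.add_mem _ hr hs, (inr_add F r s).symm⟩
  smul_mem' := by
    rintro c _ ⟨r, hr, rfl⟩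
    induction c using Unitization.ind with
    | inl_add_inr a s =>
      refine ⟨a • r + s * r, Submodule.add_mem _ (Submodule.smul_mem _ _ hr)
        (mul_mem_Q k s r hr), ?_⟩
      rw [smul_eq_mul, add_mul, inl_mul_inr, ← inr_mul, ← inr_add]

variable (F R) in
/-- the augmentation ideal -/
def J : Ideal (Unitization F R) where
  carrier := Set.range (fun r : R => (r : Unitization F R))
  zero_mem' := ⟨0, inr_zero F⟩
  add_mem' := by
    rintro _ _ ⟨r, rfl⟩ ⟨s, rfl⟩
    exact ⟨r + s, inr_add F r s⟩
  smul_mem' := by
    rintro c _ ⟨r, rfl⟩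
    induction c using Unitization.ind with
    | inl_add_inr a s =>
      refine ⟨a • r + s * r, ?_⟩
      simp only [smul_eq_mul]
      rw [add_mul, inl_mul_inr, ← inr_mul, ← inr_add]

lemma J_pow (k : ℕ) : J R F ^ (k + 1) ≤ T R F k := by
  induction k with
  | zero =>
    rw [zero_add, pow_one]
    rintro _ ⟨r, rfl⟩
    exact ⟨r, Submodule.subset_span ⟨r, [], rfl, rfl⟩, rfl⟩
  | succ k ih =>
    rw [pow_succ]
    refine Ideal.mul_le.mpr ?_
    rintro x hx _ ⟨s, rfl⟩
    obtain ⟨r, hr, rfl⟩ := ih hx
    exact ⟨r * s, mul_mem_Q_succ k s r hr, (inr_mul F r s).symm⟩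

end aux

/-- Eggert's conjecture, over every perfect field `F` of characteristic `p` (every finite field is
perfect): for a finite-dimensional commutative associative nilpotent `F`-algebra `R`, not
necessarily with identity, the `p`-th powers of the elements of `R` form a subspace `S`, and
`p * dim S ≤ dim R`. -/
theorem result (p : ℕ) (F : Type) [Field F] [CharP F p] (hp : 0 < p)
    (hF : ∀ a : F, ∃ b : F, b ^ p = a)
    (R : Type) [NonUnitalCommRing R] [Module F R] [IsScalarTower F R R] [SMulCommClass F R R]
    [FiniteDimensional F R] (hR : Nilpotent R) :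
    ∃ S : Submodule F R, (∀ x : R, x ∈ S ↔ ∃ r : R, x = powOf p r) ∧
      p * Module.finrank F S ≤ Module.finrank F R := by
  classical
  have hpp : Fact p.Prime :=
    ⟨(CharP.char_is_prime_or_zero F p).resolve_right (by omega)⟩
  have hperf : PerfectRing F p := by
    refine ⟨?_⟩
    refine ⟨?_, fun a => hF a⟩
    exact frobenius_inj F p
  have : FiniteDimensional F (Unitization F R) := by
    have e : Unitization F R ≃ₗ[F] F × R :=
      { toFun := fun x => (x.fst, x.snd)
        invFun := fun x => Unitization.inl x.1 + (x.2 : Unitization F R)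
        map_add' := fun x y => rfl
        map_smul' := fun c x => rfl
        left_inv := fun x => Unitization.inl_fst_add_inr_snd_eq x
        right_inv := fun x => by simp }
    exact Module.Finite.equiv e.symm
  have hnt : Nontrivial (Unitization F R) := by
    refine ⟨⟨0, 1, fun h => ?_⟩⟩
    have h1 : (0 : F) = 1 := congrArg (fun x : Unitization F R => x.fst) h
    exact zero_ne_one h1
  have hchar : CharP (Unitization F R) p :=
    charP_of_injective_algebraMap (algebraMap F (Unitization F R)).injective p
  obtain ⟨k, hk⟩ := hR
  have hQ : Q R F k = ⊥ := by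
    rw [eq_bot_iff, Q, Submodule.span_le]
    rintro x ⟨a, l, hl, rfl⟩
    exact hk a l hl
  have hJ : J R F ^ (k + 1) = ⊥ := by
    rw [eq_bot_iff]
    refine (J_pow k).trans ?_
    rintro _ ⟨r, hr, rfl⟩
    rw [hQ, Submodule.mem_bot] at hr
    subst hr
    exact Unitization.inr_zero F
  have hinj : Function.Injective (fun r : R => (r : Unitization F R)) :=
    Unitization.inr_injective
  -- the subspace
  let S : Submodule F R :=
    { carrier := {x | ∃ r : R, x = powOf p r}
      zero_mem' := ⟨0, hinj (by
        change ((0 : R) : Unitization F R) = ((powOf p 0 : R) : Unitization F R)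
        rw [inr_powOf p hp, Unitization.inr_zero, zero_pow hp.ne'])⟩
      add_mem' := by
        rintro _ _ ⟨r, rfl⟩ ⟨s, rfl⟩
        refine ⟨r + s, hinj ?_⟩
        change ((powOf p r + powOf p s : R) : Unitization F R)
          = ((powOf p (r + s) : R) : Unitization F R)
        rw [Unitization.inr_add, inr_powOf p hp, inr_powOf p hp, inr_powOf p hp,
          Unitization.inr_add, add_pow_char]
      smul_mem' := by
        rintro c _ ⟨r, rfl⟩
        obtain ⟨b, rfl⟩ := hF c
        refine ⟨b • r, hinj ?_⟩
        change (((b ^ p) • powOf p r : R) : Unitization F R)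
          = ((powOf p (b • r) : R) : Unitization F R)
        rw [Unitization.inr_smul, inr_powOf p hp, inr_powOf p hp, Unitization.inr_smul,
          smul_pow] }
  refine ⟨S, fun x => Iff.rfl, ?_⟩
  have hmain := Pool.Agent.Eggert.main_ineq (k := F) (A := Unitization F R) p (J R F) (k + 1) hJ
  let ι : R →ₗ[F] Unitization F R := Unitization.inrHom F F R
  have hι : Function.Injective ι := Unitization.inr_injective
  have e1 : Module.finrank F (Submodule.span F
      ((fun x : Unitization F R => x ^ p) '' (J R F : Set (Unitization F R))))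
      = Module.finrank F S := by
    have h1 : Submodule.span F
        ((fun x : Unitization F R => x ^ p) '' (J R F : Set (Unitization F R)))
        = S.map ι := by
      refine le_antisymm ?_ ?_
      · rw [Submodule.span_le]
        rintro _ ⟨_, ⟨r, rfl⟩, rfl⟩
        exact ⟨powOf p r, ⟨r, rfl⟩, inr_powOf p hp r⟩
      · rintro _ ⟨_, ⟨r, rfl⟩, rfl⟩
        refine Submodule.subset_span ⟨(r : Unitization F R), ⟨r, rfl⟩, ?_⟩
        exact (inr_powOf p hp r).symm
    rw [h1]
    exact LinearEquiv.finrank_eq (Submodule.equivMapOfInjective ι hι S).symm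
  have e2 : Module.finrank F (Pool.Agent.Eggert.Is F (J R F)) = Module.finrank F R := by
    have h1 : Pool.Agent.Eggert.Is F (J R F) = LinearMap.range ι := by
      ext x
      exact Iff.rfl
    rw [h1]
    exact LinearMap.finrank_range_of_inj hι
  rw [e1, e2] at hmain
  exact hmain

end Pool.Agent.Results.MP_6fbcf6_al.EggertConjecture
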